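import Pool.Agent.Helper66_D2.Stmts
import Pool.Agent.Helper20_D2.Tool
import Pool.Agent.Helper26_D2.Brq
import Pool.Agent.Helper26_D2.Tr
import Pool.Agent.Helper76_D1.C4d

/-!
# Part D2, module C4D: the scalars of the counting lemma agree
-/

open scoped BigOperators

noncomputable section

namespace Pool.Agent.PP.CD2.H17

open Pool.Agent.PP Pool.Agent.Helper51_AWC Pool.Agent.Helper79_WRA Pool.Agent.PP.BN.H66

section

variable {F : Type} [Field F] {G : Type} [Group G] [Finite G] {N : Subgroup G} [N.Normal]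
  {n m : ℕ} {σ : N →* Matrix (Fin n) (Fin n) F}

/-- implementers transport the action of the group ring -/
theorem imp_ev {x : G} {X : Matrix (Fin n) (Fin n) F} (hX : Helper58_CL.Imp σ x X) (a : G → F)
    (v : Fin n → F) :
    X.mulVec (evV (mrep σ) (fun t : N => a t) v) =
      evV (mrep σ) (fun t : N => a (x⁻¹ * t * x)) (X.mulVec v) := by
  classical
  have := Fintype.ofFinite N
  unfold evV
  rw [finsum_eq_sum_of_fintype, finsum_eq_sum_of_fintype, LinearMap.sum_apply,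
    LinearMap.sum_apply, Matrix.mulVec_sum]
  refine Eq.trans (Finset.sum_congr rfl (fun g _ => ?_)) (Equiv.sum_comp
    (MulAut.conjNormal x : N ≃* N).toEquiv
    (fun g : N => ((fun t : N => a (x⁻¹ * t * x)) g • mrep σ g) (X.mulVec v)))
  have h1 : x⁻¹ * (((MulAut.conjNormal x : N ≃* N).toEquiv g : N) : G) * x = g := by
    show x⁻¹ * ((MulAut.conjNormal x g : N) : G) * x = g
    rw [MulAut.conjNormal_apply]
    group
  show X.mulVec (a g • (σ g).mulVec v) =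
    a (x⁻¹ * (((MulAut.conjNormal x : N ≃* N).toEquiv g : N) : G) * x) •
      (σ (MulAut.conjNormal x g)).mulVec (X.mulVec v)
  rw [h1, Matrix.mulVec_smul, Matrix.mulVec_mulVec, Matrix.mulVec_mulVec, hX.eq]

/-- what is needed of the pair `b₁`, `w` -/
structure Eqv (N : Subgroup G) (y₁ : G) (b₁ w : G → F) : Prop where
  hb : ∀ x ∈ NY y₁, ∀ g, b₁ (x⁻¹ * g * x) = b₁ g
  hw : ∀ x ∈ NY y₁, ∃ u : G → F, (∀ g, g ∉ N → u g = 0) ∧ mulF w u = mulF u w ∧
    (fun g => w (x⁻¹ * g * x)) = mulF w u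
  sw : ∀ g, g ∉ N → w g = 0

omit [N.Normal] in
theorem sw_of {ℓ k : ℕ} {P : Subgroup G} {y₁ : G} {b w : G → F} (h : D2S ℓ k N P y₁ b w) :
    SpF (N ⊓ CY y₁) w := by
  obtain ⟨m, e, i, h1, -, h3, h4⟩ := h.ums
  have h5 : w = ∑ t, mulF (e t) w := by
    conv_lhs => rw [← h4, ← h3]
    exact H26.sum_mulF' Finset.univ e w
  rw [h5]
  exact H20.spF_sum Finset.univ fun t _ => (h1 t).sw

omit [N.Normal] in
theorem eqv_of {ℓ k : ℕ} {P : Subgroup G} {y₁ : G} {b w : G → F} (h : D2S ℓ k N P y₁ b w) :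
    Eqv N y₁ (bY y₁ b) w := by
  refine ⟨fun x hx g => ?_, fun x hx => ?_, fun g hg => sw_of h g fun h1 => hg h1.1⟩
  · by_cases hg : g ∈ CY y₁
    · rw [H26.bY_pos b hg, H26.bY_pos b ((H26.conj_CY hx).2 hg)]
      have h1 := h.idem.1 g x⁻¹
      rwa [inv_inv] at h1
    · rw [H26.bY_neg b hg, H26.bY_neg b (fun h1 => hg ((H26.conj_CY hx).1 h1))]
  · obtain ⟨u, h1, h2, h3⟩ := h.eqv x hx
    refine ⟨u, fun g hg => h1 g fun h4 => hg h4.1, ?_, h3⟩
    have h4 := H20.cmF_comm (sw_of h) h2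
    rw [← ma_mul, ← ma_mul] at h4
    exact ma_injective h4

/-- implementers preserve the fixed space -/
theorem imp_fixW {y₁ : G} {b₁ w : G → F} (h : Eqv N y₁ b₁ w) (x : NY y₁)
    {X : Matrix (Fin n) (Fin n) F} (hX : Helper58_CL.Imp σ (x : G) X) (v : Fin n → F)
    (hv : v ∈ fixW (mrep σ) (fun t : N => b₁ t) (fun t : N => w t)) :
    X.mulVec v ∈ fixW (mrep σ) (fun t : N => b₁ t) (fun t : N => w t) := by
  obtain ⟨hv1, hv2⟩ := hv
  refine ⟨?_, ?_⟩
  · have h1 := imp_ev hX b₁ v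
    rw [hv1] at h1
    have h2 : (fun t : N => b₁ ((x : G)⁻¹ * t * x)) = fun t : N => b₁ t :=
      funext fun t => h.hb x x.2 t
    rw [h2] at h1
    exact h1.symm
  · obtain ⟨U, hU⟩ := hX.unit
    have hUX : Helper58_CL.Imp σ (x : G) (U : Matrix (Fin n) (Fin n) F) := by rw [hU]; exact hX
    have hi := D1.H76.imp_inv U hUX
    have h1 := imp_ev hi w (X.mulVec v)
    obtain ⟨u, hu1, hu2, hu3⟩ := h.hw (x : G)⁻¹ (Subgroup.inv_mem _ x.2)
    have h2 : (fun t : N => w ((x : G)⁻¹⁻¹ * t * (x : G)⁻¹)) =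
        mulF (fun t : N => u t) (fun t : N => w t) := by
      rw [← H75.mulF_res N w hu1, ← hu2, ← hu3]
    have h3 : ((U⁻¹ : (Matrix (Fin n) (Fin n) F)ˣ) : Matrix (Fin n) (Fin n) F).mulVec
        (X.mulVec v) = v := by
      rw [← hU, Matrix.mulVec_mulVec, Units.inv_mul, Matrix.one_mulVec]
    rw [h2, h3, H20.evV_mulF_apply, hv2, map_zero] at h1
    have h4 : X.mulVec (((U⁻¹ : (Matrix (Fin n) (Fin n) F)ˣ) : Matrix (Fin n) (Fin n) F).mulVec
        (evV (mrep σ) (fun t : N => w t) (X.mulVec v))) = X.mulVec 0 := by rw [h1]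
    rw [Matrix.mulVec_zero, Matrix.mulVec_mulVec, ← hU, Units.mul_inv, Matrix.one_mulVec, hU] at h4
    exact h4

/-- implementers preserve the image of `w ^ r` -/
theorem imp_rngW {y₁ : G} {b₁ w : G → F} (h : Eqv N y₁ b₁ w) (r : ℕ) (x : NY y₁)
    {X : Matrix (Fin n) (Fin n) F} (hX : Helper58_CL.Imp σ (x : G) X) (v : Fin n → F)
    (hv : v ∈ rngW (mrep σ) (fun t : N => w t) r) :
    X.mulVec v ∈ rngW (mrep σ) (fun t : N => w t) r := by
  obtain ⟨v', rfl⟩ := hv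
  obtain ⟨u, hu1, hu2, hu3⟩ := h.hw (x : G) x.2
  have h2 : (fun t : N => w ((x : G)⁻¹ * t * x)) =
      mulF (fun t : N => w t) (fun t : N => u t) := by
    rw [← H75.mulF_res N u h.sw, ← hu3]
  have h3 : mulF (fun t : N => w t) (fun t : N => u t) =
      mulF (fun t : N => u t) (fun t : N => w t) := by
    rw [← H75.mulF_res N u h.sw, ← H75.mulF_res N w hu1, hu2]
  have hc : Commute (evV (mrep σ) (fun t : N => w t)) (evV (mrep σ) (fun t : N => u t)) := by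
    have h4 := congrArg (evV (mrep σ)) h3
    rw [H20.evV_mulF, H20.evV_mulF] at h4
    exact h4
  have h5 : ∀ r : ℕ, X.mulVec (((evV (mrep σ) (fun t : N => w t)) ^ r) v') =
      ((evV (mrep σ) (fun t : N => w t) * evV (mrep σ) (fun t : N => u t)) ^ r) (X.mulVec v') := by
    intro r
    induction r with
    | zero => rfl
    | succ r ih =>
      rw [pow_succ', pow_succ', Module.End.mul_apply, imp_ev hX w, ih, h2, H20.evV_mulF]
      rfl
  rw [h5 r, hc.mul_pow, Module.End.mul_apply]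
  exact ⟨_, rfl⟩

variable {y₁ : G} {b₁ w : G → F} {r : ℕ}
  {κ : N.subgroupOf (NY y₁) →* Matrix (Fin m) (Fin m) F} {π : (Fin n → F) →ₗ[F] (Fin m → F)}

/-- the induced matrix -/
theorem induced (h : Eqv N y₁ b₁ w)
    (hV : HW (jN N (NY y₁)) κ (mrep σ) π (fixW (mrep σ) (fun t : N => b₁ t) (fun t : N => w t))
      (rngW (mrep σ) (fun t : N => w t) r))
    (x : NY y₁) {X : Matrix (Fin n) (Fin n) F} (hX : Helper58_CL.Imp σ (x : G) X) :
    ∃ X' : Matrix (Fin m) (Fin m) F,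
      ∀ v ∈ fixW (mrep σ) (fun t : N => b₁ t) (fun t : N => w t),
      π (X.mulVec v) = X'.mulVec (π v) := by
  have hsur : Function.Surjective
      (π.domRestrict (fixW (mrep σ) (fun t : N => b₁ t) (fun t : N => w t))) := by
    intro w'
    obtain ⟨v, hv, h⟩ := hV.sur w'
    exact ⟨⟨v, hv⟩, h⟩
  obtain ⟨s, hs⟩ := LinearMap.exists_rightInverse_of_surjective
    (π.domRestrict (fixW (mrep σ) (fun t : N => b₁ t) (fun t : N => w t)))
    (LinearMap.range_eq_top.2 hsur)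
  have hs' : ∀ w', π ((s w' : fixW (mrep σ) (fun t : N => b₁ t) (fun t : N => w t)) :
      Fin n → F) = w' := by
    intro w'
    exact LinearMap.congr_fun hs w'
  let f : (Fin m → F) →ₗ[F] (Fin m → F) :=
    π ∘ₗ X.mulVecLin ∘ₗ (Submodule.subtype _) ∘ₗ s
  refine ⟨LinearMap.toMatrix' f, fun v hv => ?_⟩
  have h1 : (LinearMap.toMatrix' f).mulVec (π v) = f (π v) := by
    rw [← Matrix.toLin'_apply, Matrix.toLin'_toMatrix']
  rw [h1]
  show π (X.mulVec v) = π (X.mulVec ((s (π v) :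
    fixW (mrep σ) (fun t : N => b₁ t) (fun t : N => w t)) : Fin n → F))
  have h2 : v - ((s (π v) : fixW (mrep σ) (fun t : N => b₁ t) (fun t : N => w t)) : Fin n → F) ∈
      fixW (mrep σ) (fun t : N => b₁ t) (fun t : N => w t) := Submodule.sub_mem _ hv (s (π v)).2
  have h3 : π (v - ((s (π v) : fixW (mrep σ) (fun t : N => b₁ t) (fun t : N => w t)) :
      Fin n → F)) = 0 := by
    rw [map_sub, hs', sub_self]
  have h4 := imp_rngW h r x hX _ ((hV.ker _ h2).1 h3)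
  have h5 := (hV.ker _ (imp_fixW h x hX _ h2)).2 h4
  rw [Matrix.mulVec_sub, map_sub, sub_eq_zero] at h5
  exact h5

/-- elements of `N ∩ N_G(P₁)` preserve the fixed space -/
theorem fix_j (h : Eqv N y₁ b₁ w) (a : N.subgroupOf (NY y₁)) (v : Fin n → F)
    (hv : v ∈ fixW (mrep σ) (fun t : N => b₁ t) (fun t : N => w t)) :
    (σ (jN N (NY y₁) a)).mulVec v ∈ fixW (mrep σ) (fun t : N => b₁ t) (fun t : N => w t) := by
  have h1 := Helper58_CL.Imp.coe (ρ := σ) (jN N (NY y₁) a)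
  exact imp_fixW h (a : NY y₁) h1 v hv

omit [Finite G] in
theorem conj_j (x : NY y₁) (a : N.subgroupOf (NY y₁)) :
    ((MulAut.conjNormal (x : G) : N ≃* N) (jN N (NY y₁) a) : N) =
      jN N (NY y₁) (MulAut.conjNormal x a) := by
  apply Subtype.ext
  simp only [MulAut.conjNormal_apply, jN, MonoidHom.coe_mk, OneHom.coe_mk, Subgroup.coe_mul,
    InvMemClass.coe_inv]

/-- the induced matrix implements -/
theorem induced_imp (h : Eqv N y₁ b₁ w)
    (hV : HW (jN N (NY y₁)) κ (mrep σ) π (fixW (mrep σ) (fun t : N => b₁ t) (fun t : N => w t))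
      (rngW (mrep σ) (fun t : N => w t) r))
    (x : NY y₁) {X : Matrix (Fin n) (Fin n) F}
    (hX : Helper58_CL.Imp σ (x : G) X) {X' : Matrix (Fin m) (Fin m) F}
    (hX' : ∀ v ∈ fixW (mrep σ) (fun t : N => b₁ t) (fun t : N => w t),
      π (X.mulVec v) = X'.mulVec (π v)) :
    IsUnit X' ∧ ∀ a : N.subgroupOf (NY y₁), X' * κ a = κ (MulAut.conjNormal x a) * X' := by
  constructor
  · obtain ⟨U, hU⟩ := hX.unit
    have hUX : Helper58_CL.Imp σ (x : G) (U : Matrix (Fin n) (Fin n) F) := by rw [hU]; exact hX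
    have hi := D1.H76.imp_inv U hUX
    have hi' : Helper58_CL.Imp σ ((x⁻¹ : NY y₁) : G)
        ((U⁻¹ : (Matrix (Fin n) (Fin n) F)ˣ) : Matrix (Fin n) (Fin n) F) := hi
    obtain ⟨Z, hZ⟩ := induced h hV x⁻¹ hi'
    have h1 : X' * Z = 1 := by
      apply Matrix.mulVec_injective
      funext w'
      obtain ⟨v, hv, rfl⟩ := hV.sur w'
      rw [← Matrix.mulVec_mulVec, ← hZ v hv, ← hX' _ (imp_fixW h x⁻¹ hi' v hv), ← hU,
        Matrix.mulVec_mulVec, Units.mul_inv, Matrix.one_mulVec, Matrix.one_mulVec]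
    exact IsUnit.of_mul_eq_one _ h1
  · intro a
    apply Matrix.mulVec_injective
    funext w'
    obtain ⟨v, hv, rfl⟩ := hV.sur w'
    have h1 := hV.int a v hv
    have h2 := hV.int (MulAut.conjNormal x a) (X.mulVec v) (imp_fixW h x hX v hv)
    rw [D1.H76.mrep_eq] at h1 h2
    rw [← Matrix.mulVec_mulVec, ← h1, ← hX' _ (fix_j h a v hv), Matrix.mulVec_mulVec, hX.eq,
      conj_j, ← Matrix.mulVec_mulVec, h2, hX' v hv, Matrix.mulVec_mulVec]

end

/-- C4D -/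
theorem c4d : C4dStmt := by
  intro ℓ _ F _ hF G _ _ l N P _ y₁ b w hd φ θ hcor x y hk hx hy hθx hθy
  obtain ⟨n, σ, m, κ, π, hσ, htr, hκ, htrκ, hV⟩ := hcor
  have he := eqv_of hd
  have hφ : φ ∈ IBr F N := ⟨n, σ, hσ, htr.symm⟩
  have hθ : θ ∈ IBr F (N.subgroupOf (NY y₁)) := ⟨m, κ, hκ, htrκ.symm⟩
  have hk' : (x : G) * y * (x : G)⁻¹ * (y : G)⁻¹ ∈ N := hk
  obtain ⟨X, hX⟩ := Helper58_CL.exists_imp Pool.Agent.PP.H20.ibc hF hσ (x := (x : G)) (by
    rw [htr]; exact hx)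
  obtain ⟨Y, hY⟩ := Helper58_CL.exists_imp Pool.Agent.PP.H20.ibc hF hσ (x := (y : G)) (by
    rw [htr]; exact hy)
  obtain ⟨c, hc, hce⟩ := Helper58_CL.exists_scalar hσ hX hY hk'
  obtain ⟨X', hX'⟩ := induced he hV x hX
  obtain ⟨Y', hY'⟩ := induced he hV y hY
  obtain ⟨uX, iX⟩ := induced_imp he hV x hX hX'
  obtain ⟨uY, iY⟩ := induced_imp he hV y hY hY'
  have hrel : X' * Y' = c • (κ ⟨x * y * x⁻¹ * y⁻¹, hk⟩ * Y' * X') := by
    apply Matrix.mulVec_injective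
    funext w'
    obtain ⟨v, hv, rfl⟩ := hV.sur w'
    have h1 := hV.int ⟨x * y * x⁻¹ * y⁻¹, hk⟩ (Y.mulVec (X.mulVec v))
      (imp_fixW he y hY _ (imp_fixW he x hX v hv))
    rw [D1.H76.mrep_eq] at h1
    have h2 : jN N (NY y₁) ⟨x * y * x⁻¹ * y⁻¹, hk⟩ =
      ⟨(x : G) * y * (x : G)⁻¹ * (y : G)⁻¹, hk'⟩ := rfl
    rw [h2] at h1
    rw [← Matrix.mulVec_mulVec, ← hY' v hv, ← hX' _ (imp_fixW he y hY v hv),
      Matrix.mulVec_mulVec, hce,
      Matrix.smul_mulVec, Matrix.smul_mulVec, map_smul, ← Matrix.mulVec_mulVec,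
      ← Matrix.mulVec_mulVec, h1, hY' _ (imp_fixW he x hX v hv), hX' v hv, Matrix.mulVec_mulVec,
      Matrix.mulVec_mulVec, mul_assoc]
  have h8 : IsTC N φ (x : G) (y : G) c :=
    ⟨n, σ, X, Y, hk', hσ, htr, hX.unit, hY.unit, hX.eq, hY.eq, hce⟩
  have h8' : IsTC (N.subgroupOf (NY y₁)) θ x y c :=
    ⟨m, κ, X', Y', hk, hκ, htrκ, uX, uY, iX, iY, hrel⟩
  obtain ⟨-, -, h9⟩ := Helper58_CL.clu Pool.Agent.PP.H20.ibc ℓ F hF G N φ hφ x y hk' hx hy
  obtain ⟨-, -, h10⟩ := Helper58_CL.clu Pool.Agent.PP.H20.ibc ℓ F hF _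
    (N.subgroupOf (NY y₁)) θ hθ x y hk hθx hθy
  rw [← h9 _ h8]
  exact h10 _ h8'

end Pool.Agent.PP.CD2.H17
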