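import Pool.Agent.Helper66_D2.Stmts
import Pool.Agent.Helper46_D1.Ind

/-!
# Squad PP, part D2, module IND: `fix / nrm` determines `V`
-/

open scoped BigOperators

noncomputable section

namespace Pool.Agent.PP.CD2.H17

open Pool.Agent.PP Pool.Agent.Helper51_AWC Pool.Agent.Helper79_WRA

variable {F : Type} [Field F] {G : Type} [Group G]

theorem evV_prod [Finite G] {V V' : Type} [AddCommGroup V] [Module F V] [AddCommGroup V']
    [Module F V'] (ρ : Representation F G V) (ρ' : Representation F G V') (a : G → F) (v : V × V') :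
    evV (ρ.prod ρ') a v = (evV ρ a v.1, evV ρ' a v.2) := by
  have := Fintype.ofFinite G
  unfold evV
  rw [finsum_eq_sum_of_fintype, finsum_eq_sum_of_fintype, finsum_eq_sum_of_fintype,
    LinearMap.sum_apply, LinearMap.sum_apply, LinearMap.sum_apply]
  refine Prod.ext ?_ ?_
  · rw [Prod.fst_sum]
    rfl
  · rw [Prod.snd_sum]
    rfl

theorem evV_prod_pow [Finite G] {V V' : Type} [AddCommGroup V] [Module F V] [AddCommGroup V']
    [Module F V'] (ρ : Representation F G V) (ρ' : Representation F G V') (a : G → F) (j : ℕ)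
    (v : V × V') :
    ((evV (ρ.prod ρ') a) ^ j) v = (((evV ρ a) ^ j) v.1, ((evV ρ' a) ^ j) v.2) := by
  induction j with
  | zero => rfl
  | succ j ih =>
    rw [pow_succ', pow_succ', pow_succ', Module.End.mul_apply, Module.End.mul_apply,
      Module.End.mul_apply, ih, evV_prod]

theorem ind_core (hsoc : SocStmt) (hkey : KeyStmt) (hstw : StwStmt) {ℓ : ℕ} [Fact ℓ.Prime]
    (hF : GoodF ℓ F) [Finite G] {n : ℕ} {N P : Subgroup G} {y₁ : G} {b w : G → F}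
    (hb : D2S ℓ n N P y₁ b w) {A : Type} [Group A]
    {j : A →* G} (hj : j.range = NY y₁) {k k' : ℕ}
    {σ : G →* Matrix (Fin k) (Fin k) F} {σ' : G →* Matrix (Fin k') (Fin k') F} (hσ : IsIrr σ)
    (hσ' : IsIrr σ') (hσb : ev σ b = 1) (hσb' : ev σ' b = 1) {m : ℕ}
    {κ : A →* Matrix (Fin m) (Fin m) F} (hm : 0 < m) {π : (Fin k → F) →ₗ[F] (Fin m → F)}
    {π' : (Fin k' → F) →ₗ[F] (Fin m → F)}
    (hπ : HW j κ (mrep σ) π (fixW (mrep σ) (bY y₁ b) w) (rngW (mrep σ) w (ℓ ^ (n + 1) - 1)))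
    (hπ' : HW j κ (mrep σ') π' (fixW (mrep σ') (bY y₁ b) w)
      (rngW (mrep σ') w (ℓ ^ (n + 1) - 1))) : tr σ = tr σ' := by
  obtain ⟨w0, hw0⟩ : ∃ w0 : Fin m → F, w0 ≠ 0 := by
    refine ⟨fun _ => 1, fun h => ?_⟩
    have := congrFun h ⟨0, hm⟩
    exact one_ne_zero this
  obtain ⟨-, -, -, -, -, -, -, hnf, -, hfs, -⟩ := hstw ℓ F hF G n N P y₁ b w hb _ (mrep σ)
  obtain ⟨-, -, -, -, -, -, -, hnf', -, hfs', -⟩ := hstw ℓ F hF G n N P y₁ b w hb _ (mrep σ')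
  let R := (mrep σ).prod (mrep σ')
  have hR : ∀ g v, R g v = (mrep σ g v.1, mrep σ' g v.2) := fun g v => rfl
  let Y : Submodule F ((Fin k → F) × (Fin k' → F)) :=
    (fixW (mrep σ) (bY y₁ b) w).comap (LinearMap.fst F _ _) ⊓
      (fixW (mrep σ') (bY y₁ b) w).comap (LinearMap.snd F _ _) ⊓
      LinearMap.ker (π ∘ₗ LinearMap.fst F _ _ - π' ∘ₗ LinearMap.snd F _ _)
  have hY : ∀ v, v ∈ Y ↔ (v.1 ∈ fixW (mrep σ) (bY y₁ b) w ∧
      v.2 ∈ fixW (mrep σ') (bY y₁ b) w) ∧ π v.1 = π' v.2 := by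
    intro v
    change (_ ∧ _) ∧ π v.1 - π' v.2 = 0 ↔ _
    rw [sub_eq_zero]
    rfl
  have hfix : ∀ v, v ∈ fixW R (bY y₁ b) w ↔ v.1 ∈ fixW (mrep σ) (bY y₁ b) w ∧
      v.2 ∈ fixW (mrep σ') (bY y₁ b) w := by
    intro v
    change (evV R (bY y₁ b) v = v ∧ evV R w v = 0) ↔
      (evV (mrep σ) (bY y₁ b) v.1 = v.1 ∧ evV (mrep σ) w v.1 = 0) ∧
      (evV (mrep σ') (bY y₁ b) v.2 = v.2 ∧ evV (mrep σ') w v.2 = 0)
    rw [evV_prod, evV_prod]
    constructor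
    · rintro ⟨h1, h2⟩
      exact ⟨⟨congrArg Prod.fst h1, congrArg Prod.fst h2⟩,
        ⟨congrArg Prod.snd h1, congrArg Prod.snd h2⟩⟩
    · rintro ⟨⟨h1, h2⟩, ⟨h3, h4⟩⟩
      exact ⟨Prod.ext h1 h3, Prod.ext h2 h4⟩
  have hnrm : ∀ v ∈ rngW R w (ℓ ^ (n + 1) - 1), v.1 ∈ rngW (mrep σ) w (ℓ ^ (n + 1) - 1) ∧
      v.2 ∈ rngW (mrep σ') w (ℓ ^ (n + 1) - 1) := by
    rintro _ ⟨u, rfl⟩
    have h1 := evV_prod_pow (mrep σ) (mrep σ') w (ℓ ^ (n + 1) - 1) u
    exact ⟨⟨u.1, (congrArg Prod.fst h1).symm⟩, ⟨u.2, (congrArg Prod.snd h1).symm⟩⟩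
  have hlt : rngW R w (ℓ ^ (n + 1) - 1) < Y := by
    refine lt_of_le_of_ne (fun v hv => ?_) (fun heq => ?_)
    · obtain ⟨h1, h2⟩ := hnrm v hv
      have h3 := hnf h1
      have h4 := hnf' h2
      rw [hY, (hπ.ker _ h3).2 h1, (hπ'.ker _ h4).2 h2]
      exact ⟨⟨h3, h4⟩, rfl⟩
    · obtain ⟨v, hv, hvw⟩ := hπ.sur w0
      obtain ⟨v', hv', hvw'⟩ := hπ'.sur w0
      have h1 : ((v, v') : (Fin k → F) × (Fin k' → F)) ∈ Y := by
        rw [hY]
        exact ⟨⟨hv, hv'⟩, hvw.trans hvw'.symm⟩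
      rw [← heq] at h1
      have h2 := (hπ.ker v hv).2 (hnrm _ h1).1
      rw [hvw] at h2
      exact hw0 h2
  have hYf : Y ≤ fixW R (bY y₁ b) w := fun v hv => (hfix v).2 ((hY v).1 hv).1
  have hYs : Stb (NY y₁) R Y := by
    intro x hx v hv
    obtain ⟨⟨h1, h2⟩, h3⟩ := (hY v).1 hv
    rw [hY, hR]
    refine ⟨⟨hfs x hx _ h1, hfs' x hx _ h2⟩, ?_⟩
    rw [← hj] at hx
    obtain ⟨a, rfl⟩ := hx
    change π (mrep σ (j a) v.1) = π' (mrep σ' (j a) v.2)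
    rw [hπ.int a _ h1, hπ'.int a _ h2, h3]
  have hbR : ∀ v, evV R b v = v := by
    intro v
    have h1 := H46.evV_mrep σ b v.1
    have h2 := H46.evV_mrep σ' b v.2
    rw [hσb, Matrix.one_mulVec] at h1
    rw [hσb', Matrix.one_mulVec] at h2
    rw [evV_prod, h1, h2]
  obtain ⟨hs1, hs2, -⟩ := hsoc F G N hb.normal
  have hNs : NSoc N R := hs2 _ _ _ _ (hs1 k σ hσ) (hs1 k' σ' hσ')
  obtain ⟨Z, hZ0, hZs, hZY⟩ := hkey ℓ F hF G n N P y₁ b w hb _ R hbR hNs Y hlt hYf hYs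
  have hZg : ∀ g, ∀ v v', (v, v') ∈ Z → ((σ g).mulVec v, (σ' g).mulVec v') ∈ Z := fun g v v' h =>
    hZs g trivial _ h
  -- no vectors in the factors
  have hA : ∀ v, ((v, 0) : (Fin k → F) × (Fin k' → F)) ∈ Z → v = 0 := by
    intro v hv
    by_contra hv0
    have htop := H46.stab_all hσ (W := Z.comap (LinearMap.inl F _ _)) (fun g u hu => by
      have h1 := hZg g u 0 hu
      rw [Matrix.mulVec_zero] at h1
      exact h1) (v := v) hv hv0
    obtain ⟨u, hu, huw⟩ := hπ.sur w0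
    have h1 : ((u, 0) : (Fin k → F) × (Fin k' → F)) ∈ Z := by
      have : u ∈ Z.comap (LinearMap.inl F (Fin k → F) (Fin k' → F)) := by rw [htop]; trivial
      exact this
    have h2 : ((u, 0) : (Fin k → F) × (Fin k' → F)) ∈ Y :=
      hZY ⟨h1, (hfix _).2 ⟨hu, Submodule.zero_mem _⟩⟩
    have h3 := ((hY _).1 h2).2
    change π u = π' 0 at h3
    rw [map_zero, huw] at h3
    exact hw0 h3
  have hB : ∀ v, ((0, v) : (Fin k → F) × (Fin k' → F)) ∈ Z → v = 0 := by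
    intro v hv
    by_contra hv0
    have htop := H46.stab_all hσ' (W := Z.comap (LinearMap.inr F _ _)) (fun g u hu => by
      have h1 := hZg g 0 u hu
      rw [Matrix.mulVec_zero] at h1
      exact h1) (v := v) hv hv0
    obtain ⟨u, hu, huw⟩ := hπ'.sur w0
    have h1 : ((0, u) : (Fin k → F) × (Fin k' → F)) ∈ Z := by
      have : u ∈ Z.comap (LinearMap.inr F (Fin k → F) (Fin k' → F)) := by rw [htop]; trivial
      exact this
    have h2 : ((0, u) : (Fin k → F) × (Fin k' → F)) ∈ Y :=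
      hZY ⟨h1, (hfix _).2 ⟨Submodule.zero_mem _, hu⟩⟩
    have h3 := ((hY _).1 h2).2
    change π 0 = π' u at h3
    rw [map_zero, huw] at h3
    exact hw0 h3.symm
  -- the graph
  obtain ⟨z, hz, hz0⟩ := Submodule.exists_mem_ne_zero_of_ne_bot hZ0
  have hz1 : z.1 ≠ 0 := by
    intro h
    apply hz0
    have h1 : ((0, z.2) : (Fin k → F) × (Fin k' → F)) ∈ Z := by
      rw [← h]
      exact hz
    exact Prod.ext h (hB _ h1)
  let p1 : Z →ₗ[F] (Fin k → F) := LinearMap.fst F _ _ ∘ₗ Z.subtype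
  have hp1 : ∀ z : Z, p1 z = (z : (Fin k → F) × (Fin k' → F)).1 := fun z => rfl
  have hinj : Function.Injective p1 := by
    rw [injective_iff_map_eq_zero]
    intro u hu
    have h1 : ((0, (u : (Fin k → F) × (Fin k' → F)).2) : (Fin k → F) × (Fin k' → F)) ∈ Z := by
      rw [← hu]
      exact u.2
    exact Subtype.ext (Prod.ext hu (hB _ h1))
  have hsurj : Function.Surjective p1 := by
    rw [← LinearMap.range_eq_top]
    refine H46.stab_all hσ (W := LinearMap.range p1) ?_ (v := z.1) ⟨⟨z, hz⟩, rfl⟩ hz1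
    rintro g _ ⟨u, rfl⟩
    exact ⟨⟨_, hZg g _ _ u.2⟩, rfl⟩
  let e := LinearEquiv.ofBijective p1 ⟨hinj, hsurj⟩
  let f : (Fin k → F) →ₗ[F] (Fin k' → F) := LinearMap.snd F _ _ ∘ₗ Z.subtype ∘ₗ e.symm.toLinearMap
  have hf : ∀ v, ((v, f v) : (Fin k → F) × (Fin k' → F)) ∈ Z := by
    intro v
    have h1 : p1 (e.symm v) = v := e.apply_symm_apply v
    have h2 : ((v, f v) : (Fin k → F) × (Fin k' → F)) = (e.symm v : Z) := by
      refine Prod.ext ?_ rfl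
      exact h1.symm
    rw [h2]
    exact (e.symm v).2
  refine CY66.schur_two hσ hσ' f (fun g v => ?_) ?_
  · have h1 := Z.sub_mem (hf ((σ g).mulVec v)) (hZg g v (f v) (hf v))
    have h2 : (((σ g).mulVec v, f ((σ g).mulVec v)) : (Fin k → F) × (Fin k' → F)) -
        ((σ g).mulVec v, (σ' g).mulVec (f v)) =
        (0, f ((σ g).mulVec v) - (σ' g).mulVec (f v)) := by
      rw [Prod.mk_sub_mk, sub_self]
    rw [h2] at h1
    exact sub_eq_zero.1 (hB _ h1)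
  · intro h0
    have h1 := hf z.1
    rw [h0, LinearMap.zero_apply] at h1
    exact hz1 (hA _ h1)

/-- **IND** -/
theorem ind (hibc : IbcStmt) (hsoc : SocStmt) (hkey : KeyStmt) (hstw : StwStmt) : IndStmt := by
  intro ℓ _ F _ hF G _ _ n N P y₁ b w hb A _ _ j hj k k' σ σ' hσ hσ' hσb hσb' m m' κ κ' π π' hκ
    hκ' htr hπ hπ'
  obtain ⟨X, Y, -, hXY, hYX, hX⟩ := hibc ℓ F hF A m m' κ κ' hκ hκ' htr
  have hπ1 : HW j κ' (mrep σ) (Matrix.toLin' X ∘ₗ π) (fixW (mrep σ) (bY y₁ b) w)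
      (rngW (mrep σ) w (ℓ ^ (n + 1) - 1)) := by
    refine ⟨fun x v hv => ?_, fun v hv => ?_, fun w => ?_⟩
    · rw [LinearMap.comp_apply, LinearMap.comp_apply, Matrix.toLin'_apply, Matrix.toLin'_apply,
        hπ.int x v hv, Matrix.mulVec_mulVec, Matrix.mulVec_mulVec, hX]
    · rw [← hπ.ker v hv, LinearMap.comp_apply, Matrix.toLin'_apply]
      constructor
      · intro h
        have h1 : Y.mulVec (X.mulVec (π v)) = 0 := by rw [h, Matrix.mulVec_zero]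
        rwa [Matrix.mulVec_mulVec, hYX, Matrix.one_mulVec] at h1
      · intro h
        rw [h, Matrix.mulVec_zero]
    · obtain ⟨v, hv, hvw⟩ := hπ.sur (Y.mulVec w)
      refine ⟨v, hv, ?_⟩
      rw [LinearMap.comp_apply, Matrix.toLin'_apply, hvw, Matrix.mulVec_mulVec, hXY,
        Matrix.one_mulVec]
  exact ind_core hsoc hkey hstw hF hb hj hσ hσ' hσb hσb' hκ'.1 hπ1 hπ'

end Pool.Agent.PP.CD2.H17
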