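import Pool.Agent.Helper66_D2.Stmts
import Pool.Agent.Helper65_D1.Ird

/-!
# Part D2, module IRD: `fix / nrm` is irreducible
-/

open scoped BigOperators

noncomputable section

namespace Pool.Agent.PP.CD2.H17

open Pool.Agent.PP Pool.Agent.Helper51_AWC Pool.Agent.Helper79_WRA

theorem ird (hKEY : KeyStmt) (hFR1 : Fr1Stmt) (hSOC : SocStmt) (hSTW : StwStmt) : IrdStmt := by
  intro ℓ _ F _ hF G _ _ n N P y₁ b w hD A _ _ j hj k σ hσ hb
  obtain ⟨-, -, -, -, -, -, -, -, hns', hfs, -⟩ := hSTW ℓ F hF G n N P y₁ b w hD _ (mrep σ)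
  have : IsAlgClosed F := hF.closed
  have hev := D1.H65.evV_one hb
  have hns : NSoc N (mrep σ) := (hSOC F G N hD.normal).1 k σ hσ
  have hfr : rngW (mrep σ) w (ℓ ^ (n + 1) - 1) < fixW (mrep σ) (bY y₁ b) w := hFR1 ℓ F hF G n N P y₁ b w hD k σ hσ hb
  have hjn : ∀ x, j x ∈ NY y₁ := by
    intro x
    rw [← hj]
    exact ⟨x, rfl⟩
  have hfix : ∀ x, ∀ v ∈ fixW (mrep σ) (bY y₁ b) w, mrep σ (j x) v ∈ fixW (mrep σ) (bY y₁ b) w :=
    fun x v hv => hfs _ (hjn x) v hv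
  have hnrm : ∀ x, ∀ v ∈ rngW (mrep σ) w (ℓ ^ (n + 1) - 1), mrep σ (j x) v ∈ rngW (mrep σ) w (ℓ ^ (n + 1) - 1) :=
    fun x v hv => hns' _ _ (hjn x) v hv
  -- the subquotient
  let K : Submodule F (Fin k → F) := fixW (mrep σ) (bY y₁ b) w
  let M : Submodule F K := (rngW (mrep σ) w (ℓ ^ (n + 1) - 1)).comap K.subtype
  let ρA : Representation F A (Fin k → F) := (mrep σ).comp j
  have hM : ∀ x, ∀ v ∈ M, (⟨ρA x v, hfix x v v.2⟩ : K) ∈ M := by
    intro x v hv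
    exact hnrm x v hv
  let τ : Representation F A (K ⧸ M) := D1.H65.qrep ρA K hfix M hM
  have hnt : Nontrivial (K ⧸ M) := by
    rw [Submodule.Quotient.nontrivial_iff]
    intro htop
    apply hfr.not_ge
    intro v hv
    have h1 : (⟨v, hv⟩ : K) ∈ M := by
      rw [htop]
      trivial
    exact h1
  have hsimple : ∀ W : Submodule F (K ⧸ M), (∀ g, ∀ v ∈ W, τ g v ∈ W) → W = ⊥ ∨ W = ⊤ := by
    intro W hW
    let Y : Submodule F (Fin k → F) := (W.comap M.mkQ).map K.subtype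
    have hYK : Y ≤ fixW (mrep σ) (bY y₁ b) w := by
      rintro _ ⟨v, _, rfl⟩
      exact v.2
    have hNY : rngW (mrep σ) w (ℓ ^ (n + 1) - 1) ≤ Y := by
      intro v hv
      refine ⟨⟨v, hfr.le hv⟩, ?_, rfl⟩
      have h1 : M.mkQ ⟨v, hfr.le hv⟩ = 0 := by
        rw [Submodule.mkQ_apply, Submodule.Quotient.mk_eq_zero]
        exact hv
      show M.mkQ ⟨v, hfr.le hv⟩ ∈ W
      rw [h1]
      exact zero_mem _
    have hYs : Stb (NY y₁) (mrep σ) Y := by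
      intro g hg v hv
      rw [← hj] at hg
      obtain ⟨x, rfl⟩ := hg
      obtain ⟨u, hu, rfl⟩ := hv
      refine ⟨⟨ρA x u, hfix x u u.2⟩, ?_, rfl⟩
      exact hW x _ hu
    by_cases hYN : Y = rngW (mrep σ) w (ℓ ^ (n + 1) - 1)
    · left
      rw [eq_bot_iff]
      intro q hq
      obtain ⟨v, rfl⟩ := M.mkQ_surjective q
      have h1 : (v : Fin k → F) ∈ Y := ⟨v, hq, rfl⟩
      rw [hYN] at h1
      rw [Submodule.mem_bot, Submodule.mkQ_apply, Submodule.Quotient.mk_eq_zero]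
      exact h1
    · right
      obtain ⟨Z, hZ0, hZs, hZY⟩ := hKEY ℓ F hF G n N P y₁ b w hD (Fin k → F) (mrep σ) hev hns Y
        (lt_of_le_of_ne hNY (Ne.symm hYN)) hYK hYs
      have hZ := D1.H65.top_of_stb hσ hZ0 hZs
      rw [hZ, top_inf_eq] at hZY
      rw [eq_top_iff]
      intro q _
      obtain ⟨v, rfl⟩ := M.mkQ_surjective q
      obtain ⟨u, hu, huv⟩ := hZY v.2
      have h1 : u = v := Subtype.ext huv
      rw [← h1]
      exact hu
  obtain ⟨m, κ, e, hκ, he⟩ := H55.irr_of_simple τ hsimple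
  obtain ⟨π, hπ⟩ := LinearMap.exists_extend (e.toLinearMap ∘ₗ M.mkQ)
  have hπv : ∀ v (hv : v ∈ fixW (mrep σ) (bY y₁ b) w), π v = e (M.mkQ ⟨v, hv⟩) := by
    intro v hv
    have := LinearMap.congr_fun hπ ⟨v, hv⟩
    exact this
  refine ⟨m, κ, π, hκ, ⟨?_, ?_, ?_⟩⟩
  · intro x v hv
    rw [hπv v hv, ← he, hπv _ (hfix x v hv)]
    rfl
  · intro v hv
    rw [hπv v hv, LinearEquiv.map_eq_zero_iff, Submodule.mkQ_apply,
      Submodule.Quotient.mk_eq_zero]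
    rfl
  · intro w'
    obtain ⟨v, hv⟩ := M.mkQ_surjective (e.symm w')
    refine ⟨v, v.2, ?_⟩
    rw [hπv _ v.2]
    change e (M.mkQ v) = w'
    rw [hv, LinearEquiv.apply_symm_apply]

end Pool.Agent.PP.CD2.H17
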