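import Pool.Agent.Helper66_D2.Stmts
import Pool.Agent.Helper20_D2.Tool
import Pool.Agent.Helper11_D1.Und

/-!
# Part D2, module UND: `V` determines `fix / nrm`
-/

open scoped BigOperators

noncomputable section

namespace Pool.Agent.PP.CD2.H17

open Pool.Agent.PP Pool.Agent.Helper51_AWC Pool.Agent.Helper79_WRA

/-- two representations on `fx / nm` are equivalent -/
theorem hw_unique {F : Type} [Field F] {G : Type} [Group G] {V : Type} [AddCommGroup V]
    [Module F V] (ρ : Representation F G V) {A : Type} [Group A] (j : A →* G)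
    (fx nm : Submodule F V) (hst : ∀ t, ∀ v ∈ fx, ρ (j t) v ∈ fx) {m m' : ℕ}
    (κ : A →* Matrix (Fin m) (Fin m) F) (κ' : A →* Matrix (Fin m') (Fin m') F)
    (π : V →ₗ[F] (Fin m → F)) (π' : V →ₗ[F] (Fin m' → F)) (h : HW j κ ρ π fx nm)
    (h' : HW j κ' ρ π' fx nm) : tr κ = tr κ' := by
  let a : fx →ₗ[F] (Fin m → F) := π ∘ₗ fx.subtype
  let a' : fx →ₗ[F] (Fin m' → F) := π' ∘ₗ fx.subtype
  have ha : LinearMap.range a = ⊤ := by
    rw [LinearMap.range_eq_top]
    intro w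
    obtain ⟨v, hv, hw⟩ := h.sur w
    exact ⟨⟨v, hv⟩, hw⟩
  have ha' : LinearMap.range a' = ⊤ := by
    rw [LinearMap.range_eq_top]
    intro w
    obtain ⟨v, hv, hw⟩ := h'.sur w
    exact ⟨⟨v, hv⟩, hw⟩
  have hk : LinearMap.ker a = LinearMap.ker a' := by
    ext v
    rw [LinearMap.mem_ker, LinearMap.mem_ker]
    exact (h.ker v.1 v.2).trans (h'.ker v.1 v.2).symm
  let u1 := a.quotKerEquivOfSurjective (LinearMap.range_eq_top.1 ha)
  let u2 := a'.quotKerEquivOfSurjective (LinearMap.range_eq_top.1 ha')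
  let u : (Fin m → F) ≃ₗ[F] (Fin m' → F) :=
    u1.symm.trans ((Submodule.quotEquivOfEq _ _ hk).trans u2)
  have hu : ∀ v : fx, u (a v) = a' v := by
    intro v
    show u2 (Submodule.quotEquivOfEq _ _ hk (u1.symm (a v))) = _
    have h1 : u1.symm (a v) = Submodule.Quotient.mk v := by
      rw [LinearEquiv.symm_apply_eq]
      rfl
    rw [h1]
    rfl
  refine D1H11.tr_eq κ κ' u fun t w => ?_
  obtain ⟨v, hv, rfl⟩ := h.sur w
  have h1 := h.int t v hv
  have h2 := h'.int t v hv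
  have h3 := hu ⟨v, hv⟩
  have h4 := hu ⟨ρ (j t) v, hst t v hv⟩
  rw [← h1]
  calc u (π (ρ (j t) v)) = u (a ⟨ρ (j t) v, hst t v hv⟩) := rfl
    _ = a' ⟨ρ (j t) v, hst t v hv⟩ := h4
    _ = (κ' t).mulVec (a' ⟨v, hv⟩) := h2
    _ = (κ' t).mulVec (u (a ⟨v, hv⟩)) := by rw [h3]

/-- transport along an isomorphism of representations -/
theorem hw_transport {F : Type} [Field F] {G : Type} [Group G] {V V' : Type} [AddCommGroup V]
    [Module F V] [AddCommGroup V'] [Module F V'] (ρ : Representation F G V)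
    (ρ' : Representation F G V') (T : V ≃ₗ[F] V') (hT : ∀ g v, T (ρ g v) = ρ' g (T v))
    {A : Type} [Group A] (j : A →* G) {m : ℕ} (fx nm : Submodule F V) (fx' nm' : Submodule F V')
    (hfix : ∀ v, v ∈ fx ↔ T v ∈ fx') (hn : ∀ v, v ∈ nm ↔ T v ∈ nm')
    (κ : A →* Matrix (Fin m) (Fin m) F) (π : V' →ₗ[F] (Fin m → F)) (h : HW j κ ρ' π fx' nm') :
    HW j κ ρ (π ∘ₗ T.toLinearMap) fx nm := by
  refine ⟨fun x v hv => ?_, fun v hv => ?_, fun w => ?_⟩
  · show π (T (ρ (j x) v)) = _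
    rw [hT]
    exact h.int x (T v) ((hfix v).1 hv)
  · rw [hn v]
    exact h.ker (T v) ((hfix v).1 hv)
  · obtain ⟨v, hv, rfl⟩ := h.sur w
    refine ⟨T.symm v, ?_, ?_⟩
    · rw [hfix, LinearEquiv.apply_symm_apply]
      exact hv
    · show π (T (T.symm v)) = _
      rw [LinearEquiv.apply_symm_apply]

/-- the action of the group ring is transported -/
theorem evV_T {F : Type} [Field F] {G : Type} [Group G] [Finite G] {V V' : Type} [AddCommGroup V]
    [Module F V] [AddCommGroup V'] [Module F V'] {ρ : Representation F G V}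
    {ρ' : Representation F G V'} (T : V ≃ₗ[F] V') (hT : ∀ g v, T (ρ g v) = ρ' g (T v))
    (a : G → F) (v : V) : T (evV ρ a v) = evV ρ' a (T v) := by
  have := Fintype.ofFinite G
  unfold evV
  rw [finsum_eq_sum_of_fintype, finsum_eq_sum_of_fintype, LinearMap.sum_apply, LinearMap.sum_apply,
    map_sum]
  refine Finset.sum_congr rfl fun g _ => ?_
  rw [LinearMap.smul_apply, LinearMap.smul_apply, map_smul, hT]

theorem evV_T_pow {F : Type} [Field F] {G : Type} [Group G] [Finite G] {V V' : Type}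
    [AddCommGroup V] [Module F V] [AddCommGroup V'] [Module F V'] {ρ : Representation F G V}
    {ρ' : Representation F G V'} (T : V ≃ₗ[F] V') (hT : ∀ g v, T (ρ g v) = ρ' g (T v))
    (a : G → F) (r : ℕ) (v : V) : T (((evV ρ a) ^ r) v) = ((evV ρ' a) ^ r) (T v) := by
  induction r with
  | zero => rfl
  | succ r ih =>
    rw [pow_succ', pow_succ', Module.End.mul_apply, Module.End.mul_apply, evV_T T hT, ih]

/-- UND, with the stability of `fix` -/
theorem und_st (hibc : IbcStmt) (ℓ : ℕ) (F : Type) [Field F] (hF : GoodF ℓ F) (G : Type) [Group G]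
    [Finite G] (b₁ w : G → F) (r : ℕ) (A : Type) [Group A] (j : A →* G)
    (k k' : ℕ) (σ : G →* Matrix (Fin k) (Fin k) F) (σ' : G →* Matrix (Fin k') (Fin k') F)
    (hσ : IsIrr σ) (hσ' : IsIrr σ') (htr : tr σ = tr σ')
    (hst : Stb j.range (mrep σ) (fixW (mrep σ) b₁ w))
    (m m' : ℕ) (κ : A →* Matrix (Fin m) (Fin m) F) (κ' : A →* Matrix (Fin m') (Fin m') F)
    (π : (Fin k → F) →ₗ[F] (Fin m → F)) (π' : (Fin k' → F) →ₗ[F] (Fin m' → F))
    (h : HW j κ (mrep σ) π (fixW (mrep σ) b₁ w) (rngW (mrep σ) w r))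
    (h' : HW j κ' (mrep σ') π' (fixW (mrep σ') b₁ w) (rngW (mrep σ') w r)) : tr κ = tr κ' := by
  obtain ⟨X, Y, -, hXY, hYX, hint⟩ := hibc ℓ F hF G k k' σ σ' hσ hσ' htr
  let T : (Fin k → F) ≃ₗ[F] (Fin k' → F) :=
    { toFun := fun v => X.mulVec v
      map_add' := fun v w => Matrix.mulVec_add X v w
      map_smul' := fun c v => Matrix.mulVec_smul X c v
      invFun := fun v => Y.mulVec v
      left_inv := fun v => by
        show Y.mulVec (X.mulVec v) = v
        rw [Matrix.mulVec_mulVec, hYX, Matrix.one_mulVec]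
      right_inv := fun v => by
        show X.mulVec (Y.mulVec v) = v
        rw [Matrix.mulVec_mulVec, hXY, Matrix.one_mulVec] }
  have hT : ∀ g v, T (mrep σ g v) = mrep σ' g (T v) := by
    intro g v
    rw [D1H11.mrep_apply, D1H11.mrep_apply]
    show X.mulVec ((σ g).mulVec v) = (σ' g).mulVec (X.mulVec v)
    rw [Matrix.mulVec_mulVec, Matrix.mulVec_mulVec, hint]
  have hfix : ∀ v, v ∈ fixW (mrep σ) b₁ w ↔ T v ∈ fixW (mrep σ') b₁ w := by
    intro v
    change (evV (mrep σ) b₁ v = v ∧ evV (mrep σ) w v = 0) ↔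
      (evV (mrep σ') b₁ (T v) = T v ∧ evV (mrep σ') w (T v) = 0)
    rw [← evV_T T hT, ← evV_T T hT, T.injective.eq_iff, LinearEquiv.map_eq_zero_iff]
  have hn : ∀ v, v ∈ rngW (mrep σ) w r ↔ T v ∈ rngW (mrep σ') w r := by
    intro v
    constructor
    · rintro ⟨u, rfl⟩
      exact ⟨T u, (evV_T_pow T hT w r u).symm⟩
    · rintro ⟨u, hu⟩
      refine ⟨T.symm u, ?_⟩
      apply T.injective
      rw [evV_T_pow T hT, LinearEquiv.apply_symm_apply]
      exact hu
  exact hw_unique (mrep σ) j _ _ (fun t v hv => hst _ ⟨t, rfl⟩ v hv) κ κ' π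
    (π' ∘ₗ T.toLinearMap) h
    (hw_transport (mrep σ) (mrep σ') T hT j _ _ _ _ hfix hn κ' π' h')

end Pool.Agent.PP.CD2.H17
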